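import Pool.Agent.Y560.WB.All

/-!
Structurability by contractible `n`-dimensional simplicial complexes passes to all countable Borel
equivalence relations with a smooth-to-one Borel homomorphism: Borel embeddings, Borel reductions,
countable-to-one homomorphisms, subrelations.
-/

set_option autoImplicit false

namespace Pool.Agent.Results.MP_52c225_lc.SmoothHomomorphisms

open Set Pool.Agent.Helper281.Sc

universe u

/-- `E` Borel embeds into `F`: there is an injective Borel reduction. -/
def BorelEmbeds {X Y : Type u} [MeasurableSpace X] [MeasurableSpace Y] (E : X → X → Prop)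
    (F : Y → Y → Prop) : Prop :=
  ∃ f : X → Y, Measurable f ∧ Function.Injective f ∧ ∀ x x', E x x' ↔ F (f x) (f x')

/-- `E` is Borel reducible to `F`. -/
def BorelReduces {X Y : Type u} [MeasurableSpace X] [MeasurableSpace Y] (E : X → X → Prop)
    (F : Y → Y → Prop) : Prop :=
  ∃ f : X → Y, Measurable f ∧ ∀ x x', E x x' ↔ F (f x) (f x')

/-- `E` is weakly Borel reducible to `F`: there is a countable-to-one Borel homomorphism. -/
def WeaklyReduces {X Y : Type u} [MeasurableSpace X] [MeasurableSpace Y] (E : X → X → Prop)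
    (F : Y → Y → Prop) : Prop :=
  ∃ f : X → Y, Measurable f ∧ (∀ x x', E x x' → F (f x) (f x')) ∧
    ∀ y, {x | f x = y}.Countable

/-- There is a smooth-to-one Borel homomorphism from `E` to `F`: some Borel set `T` contains exactly
one point of each class of the relation `E x x'` and `f x = f x'`. -/
def SmoothToOne {X Y : Type u} [MeasurableSpace X] [MeasurableSpace Y] (E : X → X → Prop)
    (F : Y → Y → Prop) : Prop :=
  ∃ f : X → Y, Measurable f ∧ (∀ x x', E x x' → F (f x) (f x')) ∧
    ∃ T : Set X, MeasurableSet T ∧ ∀ x, ∃! x', x' ∈ T ∧ E x x' ∧ f x = f x'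

/-- `E` is structurable by countable contractible simplicial complexes of dimension at most `n`. -/
def StructurableLE {X : Type u} [MeasurableSpace X] (n : ℕ) (E : X → X → Prop) : Prop :=
  ∃ S : Set (Finset X), Stru n E S

/-- `E` is `C_n`-structurable: structurable by countable contractible simplicial complexes of
dimension exactly `n` (on every class there is a simplex with `n + 1` vertices, and no simplex has
more vertices). -/
def Structurable {X : Type u} [MeasurableSpace X] (n : ℕ) (E : X → X → Prop) : Prop :=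
  ∃ S : Set (Finset X), Stru n E S ∧ ∀ x, ∃ s ∈ S, s.card = n + 1 ∧ ∀ y ∈ s, E x y

/-- Let `n ≥ 2`, and let `E`, `F` be countable Borel equivalence relations. If there is a
smooth-to-one Borel homomorphism from `E` to `F`, then structurability by contractible complexes of
dimension at most `n`, and of dimension exactly `n` (here all classes of `E` must have at least
`n + 1` points, which is necessary), passes from `F` to `E`. Borel embeddings, Borel reductions and
countable-to-one Borel homomorphisms are smooth-to-one, and so is the inclusion of `E` into a larger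
countable Borel equivalence relation. -/
theorem result (n : ℕ) (hn : 2 ≤ n) {X Y : Type u} [MeasurableSpace X] [StandardBorelSpace X]
    [MeasurableSpace Y] [StandardBorelSpace Y] (E : X → X → Prop) (F : Y → Y → Prop)
    (hE : IsCBER E) (hF : IsCBER F) :
    (SmoothToOne E F → (StructurableLE n F → StructurableLE n E) ∧
      (Structurable n F → (Structurable n E ↔
        ∀ x, ∃ t : Finset X, t.card = n + 1 ∧ ∀ y ∈ t, E x y))) ∧
    (BorelEmbeds E F → BorelReduces E F) ∧ (BorelReduces E F → WeaklyReduces E F) ∧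
    (WeaklyReduces E F → SmoothToOne E F) ∧
    ∀ G : X → X → Prop, (∀ x x', E x x' → G x x') → SmoothToOne E G := by
  refine ⟨?_, ?_, ?_, ?_, ?_⟩
  · rintro ⟨f, hf, hom, T, hT, hT'⟩
    have hTr : Pool.Agent.Y560.WB.Trv E f T := by
      refine ⟨hT, fun x => ?_, fun x hx x' hx' h1 h2 => ?_⟩
      · obtain ⟨x', h1, -⟩ := hT' x
        exact ⟨x', h1.1, h1.2.1, h1.2.2⟩
      · exact (hT' x).unique ⟨hx, hE.equiv.refl x, rfl⟩ ⟨hx', h1, h2⟩
    constructor
    · rintro ⟨K, hK⟩
      obtain ⟨L, hL, -⟩ := Pool.Agent.Y560.WB.weak_main hE hF hf hom hTr n hn K hK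
      exact ⟨L, hL⟩
    · rintro ⟨K, hK, hK2⟩
      obtain ⟨L, hL, hL2⟩ := Pool.Agent.Y560.WB.weak_main hE hF hf hom hTr n hn K hK
      constructor
      · rintro ⟨S, hS, hS2⟩ x
        obtain ⟨s, _, hs1, hs2⟩ := hS2 x
        exact ⟨s, hs1, hs2⟩
      · intro h
        exact ⟨L, hL, fun x => hL2 x (hK2 (f x)) (h x)⟩
  · rintro ⟨f, hf, -, h⟩
    exact ⟨f, hf, h⟩
  · rintro ⟨f, hf, h⟩
    refine ⟨f, hf, fun x x' => (h x x').1, fun y => ?_⟩
    rcases Set.eq_empty_or_nonempty {x | f x = y} with h1 | ⟨x, hx⟩
    · rw [h1]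
      exact Set.countable_empty
    · refine (hE.countable x).mono fun x' hx' => (h x x').2 ?_
      have e1 : f x = y := hx
      have e2 : f x' = y := hx'
      rw [e1, e2]
      exact hF.equiv.refl y
  · rintro ⟨f, hf, hom, hc⟩
    obtain ⟨T, hT⟩ := Pool.Agent.Y560.WB.trv_of_countable hE hf hc
    refine ⟨f, hf, hom, T, hT.meas, fun x => ?_⟩
    obtain ⟨x', h1, h2, h3⟩ := hT.ex x
    refine ⟨x', ⟨h1, h2, h3⟩, ?_⟩
    rintro x'' ⟨h4, h5, h6⟩
    exact hT.uni x'' h4 x' h1 (hE.equiv.trans (hE.equiv.symm h5) h2) (h6.symm.trans h3)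
  · intro G hG
    refine ⟨id, measurable_id, hG, Set.univ, MeasurableSet.univ, fun x =>
      ⟨x, ⟨Set.mem_univ x, hE.equiv.refl x, rfl⟩, ?_⟩⟩
    rintro x' ⟨-, -, h⟩
    exact h.symm

end Pool.Agent.Results.MP_52c225_lc.SmoothHomomorphisms
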